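import Mathlib

/-!
# A boundary-integral inequality for non-negative convex functions

For every `n ≥ 3`, every convex `h : ℝ^{n-1} → [0, ∞)` and every compact convex `C ⊆ ℝ^{n-1}`
(contained in the support of `h` or not),
`∫_{∂C} (|y|² + h(y)²) dH^{n-2}(y) ≥ (2/(n-1)) ∫_C h(z) √(1 + |∇h(z)|²) dz`.

Put `d = n - 1`. Proof: `√(1 + |∇h|²) ≤ ∑ᵢ √(1/d² + (∂ᵢh)²)`; on a chord `[a, b]` of `C` in
direction `eᵢ` the restriction `φ` of `h` is convex and
`∫_a^b φ √(1/d² + φ'²) ≤ (φ(a)² + φ(b)²)/2 + (a² + b²)/d²`; projections do not increase Hausdorff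
measure, so the integral of the right side over all chords is at most the integral of
`h²/2 + yᵢ²/d²` over `∂C`; finally sum over `i` and use `2/d³ ≤ 1`.
-/

set_option autoImplicit false

open MeasureTheory Set
open scoped ENNReal

namespace Pool.Agent.Results.MP_e9cb08_gt.ConvexBoundary

/-- convex functions on the line are continuous -/
theorem cont1 {φ : ℝ → ℝ} (hφ : ConvexOn ℝ univ φ) : Continuous φ :=
  hφ.locallyLipschitz.continuous

/-- the elementary pointwise bound -/
theorem ptw {c m u r s : ℝ} (hc : 0 ≤ c) (hm : 0 ≤ m) (hs : 0 ≤ s) (hr : 0 ≤ r)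
    (hum : u ≤ m + r * s) : u * √(c ^ 2 + r ^ 2) ≤ u * r + m * c + c ^ 2 * s / 2 := by
  set q := √(c ^ 2 + r ^ 2) with hq
  have hq2 : q ^ 2 = c ^ 2 + r ^ 2 := Real.sq_sqrt (by positivity)
  have hq0 : 0 ≤ q := Real.sqrt_nonneg _
  have h1 : r ≤ q := by
    apply Real.le_sqrt_of_sq_le; nlinarith [sq_nonneg c]
  have h2 : q ≤ r + c := by
    apply Real.sqrt_le_iff.mpr
    constructor
    · positivity
    · nlinarith [mul_nonneg hr hc]
  have h3 : r * (q - r) ≤ c ^ 2 / 2 := by
    nlinarith [mul_nonneg hr (sub_nonneg.mpr h1), sq_nonneg (q - r)]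
  have h4 : u * (q - r) ≤ (m + r * s) * (q - r) :=
    mul_le_mul_of_nonneg_right hum (sub_nonneg.mpr h1)
  have h5 : m * (q - r) ≤ m * c := mul_le_mul_of_nonneg_left (by linarith) hm
  have h6 : s * (r * (q - r)) ≤ s * (c ^ 2 / 2) := mul_le_mul_of_nonneg_left h3 hs
  nlinarith

/-- the derivative (Lean's `deriv`, zero where it does not exist) is dominated by the right
derivative -/
theorem deriv_sq_le {φ : ℝ → ℝ} (t : ℝ) :
    (deriv φ t) ^ 2 ≤ (derivWithin φ (Ioi t) t) ^ 2 := by
  by_cases h : DifferentiableAt ℝ φ t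
  · rw [h.derivWithin (uniqueDiffWithinAt_Ioi t)]
  · rw [deriv_zero_of_not_differentiableAt h]
    simpa using sq_nonneg _

theorem half {φ : ℝ → ℝ} (hφ : ConvexOn ℝ univ φ) (h0 : ∀ t, 0 ≤ φ t) {c : ℝ} (hc : 0 ≤ c)
    {a b : ℝ} (hab : a ≤ b) (hmin : ∀ t ∈ Icc a b, φ a ≤ φ t) :
    ∫⁻ t in Icc a b, ENNReal.ofReal (φ t * √(c ^ 2 + (deriv φ t) ^ 2)) ≤
      ENNReal.ofReal ((φ b ^ 2 - φ a ^ 2) / 2 + φ a * c * (b - a) + c ^ 2 * (b - a) ^ 2 / 4) := by
  set r : ℝ → ℝ := fun t => derivWithin φ (Ioi t) t with hr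
  have hint : ∀ t : ℝ, t ∈ interior (univ : Set ℝ) := fun t => by simp
  have hmono : Monotone r := by
    intro x y hxy
    exact hφ.monotoneOn_rightDeriv (hint x) (hint y) hxy
  have hder : ∀ t, HasDerivWithinAt φ (r t) (Ioi t) t := fun t =>
    hφ.hasDerivWithinAt_rightDeriv_of_mem_interior (hint t)
  have hcont := cont1 hφ
  -- sign of `r`
  have hr0 : ∀ t ∈ Ico a b, 0 ≤ r t := by
    intro t ht
    have h1 : 0 ≤ r a := by
      have := hder a
      rw [hasDerivWithinAt_iff_tendsto_slope' (by simp)] at this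
      refine ge_of_tendsto this ?_
      have hab' : a < b := lt_of_le_of_lt ht.1 ht.2
      filter_upwards [Ioo_mem_nhdsGT hab'] with s hs
      rw [slope_def_field]
      exact div_nonneg (sub_nonneg.mpr (hmin s ⟨hs.1.le, hs.2.le⟩)) (sub_nonneg.mpr hs.1.le)
    exact h1.trans (hmono ht.1)
  -- the majorant
  set g : ℝ → ℝ := fun t => φ t ^ 2 / 2 + φ a * c * t + c ^ 2 * (t - a) ^ 2 / 4 with hg
  set g' : ℝ → ℝ := fun t => φ t * r t + φ a * c + c ^ 2 * (t - a) / 2 with hg'
  have hgder : ∀ t, HasDerivWithinAt g (g' t) (Ioi t) t := by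
    intro t
    have h1 : HasDerivWithinAt (fun s => φ s ^ 2 / 2) (2 * φ t ^ (2 - 1) * r t / 2) (Ioi t) t :=
      ((hder t).fun_pow 2).div_const 2
    have h2 : HasDerivWithinAt (fun s : ℝ => φ a * c * s) (φ a * c * 1) (Ioi t) t :=
      (hasDerivWithinAt_id t _).const_mul _
    have h3 : HasDerivWithinAt (fun s : ℝ => c ^ 2 * (s - a) ^ 2 / 4)
        (c ^ 2 * (2 * (t - a) ^ (2 - 1) * 1) / 4) (Ioi t) t :=
      ((((hasDerivWithinAt_id t _).sub_const a).fun_pow 2).const_mul _).div_const 4
    have := (h1.add h2).add h3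
    refine this.congr_deriv ?_
    simp only [hg']
    ring
  have hgcont : Continuous g := by
    fun_prop
  have hmeas : Measurable (fun t => φ t * √(c ^ 2 + (deriv φ t) ^ 2)) := by
    have := measurable_deriv φ
    have := hcont.measurable
    fun_prop
  -- integrability
  have hg'int : IntegrableOn g' (Icc a b) := by
    have h1 : IntegrableOn (fun t => φ t * r t) (Icc a b) := by
      have h2 : IntegrableOn r (Icc a b) := (hmono.monotoneOn _).integrableOn_isCompact isCompact_Icc
      exact h2.continuousOn_mul hcont.continuousOn isCompact_Icc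
    have h3 : IntegrableOn (fun t : ℝ => φ a * c + c ^ 2 * (t - a) / 2) (Icc a b) := by
      apply ContinuousOn.integrableOn_compact isCompact_Icc
      fun_prop
    have := h1.add h3
    refine this.congr ?_
    filter_upwards with t
    simp only [hg', Pi.add_apply]; ring
  have hle : ∀ t ∈ Ico a b, φ t * √(c ^ 2 + (deriv φ t) ^ 2) ≤ g' t := by
    intro t ht
    have hrt := hr0 t ht
    have h1 : φ t * √(c ^ 2 + (deriv φ t) ^ 2) ≤ φ t * √(c ^ 2 + (r t) ^ 2) := by
      apply mul_le_mul_of_nonneg_left _ (h0 t)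
      apply Real.sqrt_le_sqrt
      have := deriv_sq_le (φ := φ) t
      simp only [hr]; linarith
    have h2 : φ t ≤ φ a + r t * (t - a) := by
      rcases eq_or_lt_of_le ht.1 with h | h
      · subst h; simp
      · have h3 := hφ.slope_le_of_hasDerivWithinAt_Iio (mem_univ a) (mem_univ t) h
          (hφ.hasDerivWithinAt_leftDeriv_of_mem_interior (hint t))
        have h4 := hφ.leftDeriv_le_rightDeriv_of_mem_interior (hint t)
        have h5 : slope φ a t ≤ r t := h3.trans h4
        rw [slope_def_field, div_le_iff₀ (by linarith)] at h5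
        linarith
    have h3 := ptw hc (h0 a) (sub_nonneg.mpr ht.1) hrt h2
    simp only [hg']
    linarith
  have hint2 : IntegrableOn (fun t => φ t * √(c ^ 2 + (deriv φ t) ^ 2)) (Icc a b) := by
    have hh : IntegrableOn g' (Ico a b) := hg'int.mono_set Ico_subset_Icc_self
    rw [integrableOn_Icc_iff_integrableOn_Ico]
    refine Integrable.mono' hh hmeas.aestronglyMeasurable ?_
    rw [ae_restrict_iff' measurableSet_Ico]
    filter_upwards with t ht
    rw [Real.norm_of_nonneg (mul_nonneg (h0 t) (Real.sqrt_nonneg _))]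
    exact hle t ht
  rw [← ofReal_integral_eq_lintegral_ofReal hint2
    (by filter_upwards with t; exact mul_nonneg (h0 t) (Real.sqrt_nonneg _))]
  apply ENNReal.ofReal_le_ofReal
  rw [integral_Icc_eq_integral_Ioc, ← intervalIntegral.integral_of_le hab]
  have := intervalIntegral.integral_le_sub_of_hasDeriv_right_of_le hab hgcont.continuousOn
    (fun t _ => hgder t) hint2 (fun t ht => hle t ⟨ht.1.le, ht.2⟩)
  refine this.trans (le_of_eq ?_)
  simp only [hg]; ring

theorem oneD {φ : ℝ → ℝ} (hφ : ConvexOn ℝ univ φ) (h0 : ∀ t, 0 ≤ φ t) {c : ℝ} (hc : 0 ≤ c)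
    {a b : ℝ} (hab : a ≤ b) :
    ∫⁻ t in Icc a b, ENNReal.ofReal (φ t * √(c ^ 2 + (deriv φ t) ^ 2)) ≤
      ENNReal.ofReal (φ a ^ 2 / 2 + c ^ 2 * a ^ 2) + ENNReal.ofReal (φ b ^ 2 / 2 + c ^ 2 * b ^ 2) := by
  obtain ⟨t0, ht0, hmin⟩ := isCompact_Icc.exists_isMinOn (nonempty_Icc.mpr hab)
    (cont1 hφ).continuousOn
  have hmin' : ∀ t ∈ Icc a b, φ t0 ≤ φ t := fun t ht => hmin ht
  -- right half
  have hR := half hφ h0 hc ht0.2 (fun t ht => hmin' t ⟨ht0.1.trans ht.1, ht.2⟩)
  -- left half
  have hψ : ConvexOn ℝ univ (fun t => φ (-t)) := by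
    have := hφ.comp_linearMap (-LinearMap.id : ℝ →ₗ[ℝ] ℝ)
    simpa [Function.comp_def] using this
  have hL := half hψ (fun t => h0 (-t)) hc (neg_le_neg ht0.1) (fun t ht => by
    simp only [neg_neg]
    exact hmin' (-t) ⟨by linarith [ht.2], by linarith [ht.1, ht0.2]⟩)
  have hLeq : ∫⁻ t in Icc (-t0) (-a),
      ENNReal.ofReal ((fun t => φ (-t)) t * √(c ^ 2 + (deriv (fun t => φ (-t)) t) ^ 2)) =
      ∫⁻ t in Icc a t0, ENNReal.ofReal (φ t * √(c ^ 2 + (deriv φ t) ^ 2)) := by
    have h1 := (Measure.measurePreserving_neg (volume : Measure ℝ)).setLIntegral_comp_preimage_emb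
      (MeasurableEquiv.neg ℝ).measurableEmbedding
      (fun t => ENNReal.ofReal (φ t * √(c ^ 2 + (deriv φ t) ^ 2))) (Icc a t0)
    rw [← h1]
    have h2 : (Neg.neg ⁻¹' Icc a t0 : Set ℝ) = Icc (-t0) (-a) := by
      ext t; simp only [mem_preimage, mem_Icc]; constructor <;> rintro ⟨h1, h2⟩ <;>
        constructor <;> linarith
    rw [h2]
    refine lintegral_congr (fun t => ?_)
    rw [deriv_comp_neg]
    simp
  rw [hLeq] at hL
  have hsplit : Icc a b ⊆ Icc a t0 ∪ Icc t0 b := by
    intro t ht
    rcases le_total t t0 with h | h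
    · exact Or.inl ⟨ht.1, h⟩
    · exact Or.inr ⟨h, ht.2⟩
  have hma := hmin' a ⟨le_rfl, hab⟩
  have hmb := hmin' b ⟨hab, le_rfl⟩
  have hm := h0 t0
  have e1 : φ t0 ^ 2 ≤ φ a ^ 2 := pow_le_pow_left₀ hm hma 2
  have e2 : φ t0 ^ 2 ≤ φ b ^ 2 := pow_le_pow_left₀ hm hmb 2
  calc ∫⁻ t in Icc a b, ENNReal.ofReal (φ t * √(c ^ 2 + (deriv φ t) ^ 2))
      ≤ ∫⁻ t in Icc a t0 ∪ Icc t0 b, ENNReal.ofReal (φ t * √(c ^ 2 + (deriv φ t) ^ 2)) :=
        lintegral_mono_set hsplit
    _ ≤ _ := lintegral_union_le _ _ _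
    _ ≤ _ := add_le_add hL hR
    _ = ENNReal.ofReal _ := (ENNReal.ofReal_add (by
        have := mul_nonneg (mul_nonneg hm hc) (sub_nonneg.mpr ht0.1)
        simp only [neg_neg]
        have h3 : 0 ≤ c ^ 2 * (-a - -t0) ^ 2 / 4 := by positivity
        have h4 : φ t0 * c * (-a - -t0) = φ t0 * c * (t0 - a) := by ring
        rw [h4]
        linarith) (by
        have := mul_nonneg (mul_nonneg hm hc) (sub_nonneg.mpr ht0.2)
        have h3 : 0 ≤ c ^ 2 * (b - t0) ^ 2 / 4 := by positivity
        linarith)).symm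
    _ ≤ ENNReal.ofReal ((φ a ^ 2 / 2 + c ^ 2 * a ^ 2) + (φ b ^ 2 / 2 + c ^ 2 * b ^ 2)) := by
        apply ENNReal.ofReal_le_ofReal
        simp only [neg_neg]
        have k1 : 0 ≤ (φ t0 - c * (b - a) / 2) ^ 2 := sq_nonneg _
        have k2 : 0 ≤ c ^ 2 * (a + b) ^ 2 := by positivity
        have k3 : 0 ≤ c ^ 2 * ((t0 - a) * (b - t0)) :=
          mul_nonneg (sq_nonneg c) (mul_nonneg (sub_nonneg.mpr ht0.1) (sub_nonneg.mpr ht0.2))
        nlinarith
    _ = _ := ENNReal.ofReal_add (by positivity) (by positivity)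


/-! ### Geometry of chords -/

/-- Euclidean space `ℝⁿ`. -/
abbrev E (n : ℕ) : Type := EuclideanSpace ℝ (Fin n)

variable {m : ℕ}

/-- insert `t` as the `i`-th coordinate -/
noncomputable def ins (i : Fin (m + 1)) (t : ℝ) (x : E m) : E (m + 1) :=
  WithLp.toLp 2 (i.insertNth t x.ofLp)

/-- delete the `i`-th coordinate -/
noncomputable def del (i : Fin (m + 1)) (y : E (m + 1)) : E m :=
  WithLp.toLp 2 (fun j => y (i.succAbove j))

@[simp] theorem ins_same (i : Fin (m + 1)) (t : ℝ) (x : E m) : (ins i t x) i = t := by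
  simp [ins]

@[simp] theorem ins_above (i : Fin (m + 1)) (t : ℝ) (x : E m) (j : Fin m) :
    (ins i t x) (i.succAbove j) = x j := by
  simp [ins]

@[simp] theorem del_ins (i : Fin (m + 1)) (t : ℝ) (x : E m) : del i (ins i t x) = x := by
  ext j
  simp [del]

theorem ins_del (i : Fin (m + 1)) (y : E (m + 1)) : ins i (y i) (del i y) = y := by
  ext k
  refine Fin.succAboveCases i ?_ (fun j => ?_) k
  · simp
  · simp [del]

theorem cont_ins (i : Fin (m + 1)) : Continuous (fun p : ℝ × E m => ins i p.1 p.2) := by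
  unfold ins
  refine (PiLp.continuous_toLp 2 _).comp ?_
  refine continuous_pi (fun k => ?_)
  refine Fin.succAboveCases i ?_ (fun j => ?_) k
  · simp only [Fin.insertNth_apply_same]; fun_prop
  · simp only [Fin.insertNth_apply_succAbove]; fun_prop

theorem cont_del (i : Fin (m + 1)) : Continuous (del i) := by
  unfold del
  fun_prop

theorem lip_del (i : Fin (m + 1)) : LipschitzWith 1 (del i) := by
  refine LipschitzWith.of_dist_le_mul (fun y z => ?_)
  rw [NNReal.coe_one, one_mul, EuclideanSpace.dist_eq, EuclideanSpace.dist_eq]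
  apply Real.sqrt_le_sqrt
  rw [Fin.sum_univ_succAbove _ i]
  simp only [del]
  have : 0 ≤ dist (y.ofLp i) (z.ofLp i) ^ 2 := by positivity
  linarith

theorem mp_ins (i : Fin (m + 1)) :
    MeasurePreserving (fun p : ℝ × E m => ins i p.1 p.2)
      ((volume : Measure ℝ).prod (volume : Measure (E m))) volume := by
  have h1 : MeasurePreserving (Prod.map id (@WithLp.ofLp 2 (Fin m → ℝ)))
      ((volume : Measure ℝ).prod (volume : Measure (E m)))
      ((volume : Measure ℝ).prod (volume : Measure (Fin m → ℝ))) :=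
    (MeasurePreserving.id volume).prod (PiLp.volume_preserving_ofLp (Fin m))
  have h2 := (volume_preserving_piFinSuccAbove (fun _ : Fin (m + 1) => ℝ) i).symm
  have h3 := PiLp.volume_preserving_toLp (Fin (m + 1))
  exact (h3.comp h2).comp h1

/-- Fubini for the `i`-th coordinate -/
theorem fub (i : Fin (m + 1)) {F : E (m + 1) → ℝ≥0∞} (hF : Measurable F) :
    ∫⁻ z, F z = ∫⁻ x : E m, ∫⁻ t : ℝ, F (ins i t x) := by
  rw [← (mp_ins i).lintegral_comp hF, lintegral_prod_symm']
  exact hF.comp (cont_ins i).measurable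

/-- A projection of a set, compared with its `m`-dimensional Hausdorff measure. -/
theorem proj_le (i : Fin (m + 1)) (S : Set (E (m + 1))) {G : E m → ℝ≥0∞} (hG : Measurable G) :
    ∫⁻ x in del i '' S, G x ≤ ∫⁻ y in S, G (del i y) ∂μHE[m] := by
  have hle : (volume : Measure (E m)).restrict (del i '' S) ≤
      ((μHE[m] : Measure (E (m + 1))).restrict S).map (del i) := by
    refine Measure.le_iff.mpr (fun B hB => ?_)
    rw [Measure.restrict_apply hB, Measure.map_apply (cont_del i).measurable hB,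
      Measure.restrict_apply ((cont_del i).measurable hB),
      ← EuclideanSpace.euclideanHausdorffMeasure_eq_volume]
    have h1 : B ∩ del i '' S = del i '' (del i ⁻¹' B ∩ S) := by
      rw [image_preimage_inter]
    rw [h1, Measure.euclideanHausdorffMeasure_def, Measure.euclideanHausdorffMeasure_def,
      Measure.smul_apply, Measure.smul_apply]
    have h2 := (lip_del i).hausdorffMeasure_image_le (d := (m : ℝ)) (by positivity)
      (del i ⁻¹' B ∩ S)
    simp only [ENNReal.coe_one, ENNReal.one_rpow, one_mul] at h2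
    rw [ENNReal.smul_def, ENNReal.smul_def, smul_eq_mul, smul_eq_mul]
    gcongr
  calc ∫⁻ x in del i '' S, G x
      ≤ ∫⁻ x, G x ∂(((μHE[m] : Measure (E (m + 1))).restrict S).map (del i)) :=
        lintegral_mono' hle le_rfl
    _ = _ := lintegral_map hG (cont_del i).measurable

/-- the chord over `x` in direction `i` -/
def chord (C : Set (E (m + 1))) (i : Fin (m + 1)) (x : E m) : Set ℝ := {t | ins i t x ∈ C}

/-- upper end of the chord -/
noncomputable def top (C : Set (E (m + 1))) (i : Fin (m + 1)) (x : E m) : ℝ := sSup (chord C i x)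

/-- lower end of the chord -/
noncomputable def bot (C : Set (E (m + 1))) (i : Fin (m + 1)) (x : E m) : ℝ := sInf (chord C i x)

theorem mem_chord {C : Set (E (m + 1))} {i : Fin (m + 1)} {x : E m} {t : ℝ} :
    t ∈ chord C i x ↔ ins i t x ∈ C := Iff.rfl

theorem chord_nonempty {C : Set (E (m + 1))} {i : Fin (m + 1)} {x : E m} :
    (chord C i x).Nonempty ↔ x ∈ del i '' C := by
  constructor
  · rintro ⟨t, ht⟩
    exact ⟨ins i t x, ht, by simp⟩
  · rintro ⟨y, hy, rfl⟩
    exact ⟨y i, by rw [mem_chord, ins_del]; exact hy⟩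

theorem isCompact_chord {C : Set (E (m + 1))} (hC : IsCompact C) (i : Fin (m + 1)) (x : E m) :
    IsCompact (chord C i x) := by
  have h1 : chord C i x ⊆ (fun y : E (m + 1) => y i) '' C := by
    intro t ht
    exact ⟨ins i t x, ht, by simp⟩
  refine IsCompact.of_isClosed_subset (hC.image (by fun_prop)) ?_ h1
  exact hC.isClosed.preimage ((cont_ins i).comp (Continuous.prodMk_left x))

theorem convex_chord {C : Set (E (m + 1))} (hC : Convex ℝ C) (i : Fin (m + 1)) (x : E m) :
    Convex ℝ (chord C i x) := by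
  intro s hs t ht a b ha hb hab
  rw [mem_chord] at *
  have : ins i (a • s + b • t) x = a • ins i s x + b • ins i t x := by
    ext k
    refine Fin.succAboveCases i ?_ (fun j => ?_) k
    · simp
    · simp only [ins_above, PiLp.add_apply, PiLp.smul_apply, smul_eq_mul]
      rw [← add_mul, hab, one_mul]
  rw [this]
  exact hC hs ht ha hb hab

theorem chord_eq {C : Set (E (m + 1))} (hC : IsCompact C) (hC' : Convex ℝ C) {i : Fin (m + 1)}
    {x : E m} (hx : (chord C i x).Nonempty) : chord C i x = Icc (bot C i x) (top C i x) :=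
  eq_Icc_csInf_csSup_of_connected_bdd_closed ⟨hx, (convex_chord hC' i x).isPreconnected⟩
    (isCompact_chord hC i x).bddBelow (isCompact_chord hC i x).bddAbove
    (isCompact_chord hC i x).isClosed

theorem top_mem {C : Set (E (m + 1))} (hC : IsCompact C) {i : Fin (m + 1)}
    {x : E m} (hx : (chord C i x).Nonempty) : top C i x ∈ chord C i x :=
  (isCompact_chord hC i x).sSup_mem hx

theorem bot_mem {C : Set (E (m + 1))} (hC : IsCompact C) {i : Fin (m + 1)}
    {x : E m} (hx : (chord C i x).Nonempty) : bot C i x ∈ chord C i x :=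
  (isCompact_chord hC i x).sInf_mem hx

theorem meas_top {C : Set (E (m + 1))} (hC : IsCompact C) (i : Fin (m + 1)) :
    Measurable (top C i) := by
  refine measurable_of_Ici (fun s => ?_)
  have : top C i ⁻¹' Ici s =
      del i '' (C ∩ {y | s ≤ y i}) ∪ ((del i '' C)ᶜ ∩ {_x : E m | s ≤ 0}) := by
    ext x
    by_cases hx : (chord C i x).Nonempty
    · have hx' := chord_nonempty.mp hx
      simp only [mem_preimage, mem_Ici, mem_union, mem_inter_iff, mem_compl_iff, hx', not_true,
        false_and, or_false]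
      constructor
      · intro h
        exact ⟨ins i (top C i x) x, ⟨top_mem hC hx, by simpa using h⟩, by simp⟩
      · rintro ⟨y, ⟨hy, hys⟩, rfl⟩
        refine le_trans hys (le_csSup (isCompact_chord hC i _).bddAbove ?_)
        rw [mem_chord, ins_del]; exact hy
    · have hx' : x ∉ del i '' C := fun h => hx (chord_nonempty.mpr h)
      have h2 : x ∉ del i '' (C ∩ {y | s ≤ y i}) := fun h => hx' (image_mono inter_subset_left h)
      have h3 : top C i x = 0 := by
        rw [top, not_nonempty_iff_eq_empty.mp hx, Real.sSup_empty]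
      simp only [mem_preimage, mem_Ici, mem_union, mem_inter_iff, mem_compl_iff, hx', h2,
        false_or, not_false_eq_true, true_and, h3]
      exact Iff.rfl
  rw [this]
  refine MeasurableSet.union ?_ (MeasurableSet.inter ?_ ?_)
  · have h1 : IsClosed {y : E (m + 1) | s ≤ y i} := isClosed_le (by fun_prop) (by fun_prop)
    exact ((hC.inter_right h1).image (cont_del i)).measurableSet
  · exact (hC.image (cont_del i)).measurableSet.compl
  · exact MeasurableSet.const _

theorem meas_bot {C : Set (E (m + 1))} (hC : IsCompact C) (i : Fin (m + 1)) :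
    Measurable (bot C i) := by
  refine measurable_of_Iic (fun s => ?_)
  have : bot C i ⁻¹' Iic s =
      del i '' (C ∩ {y | y i ≤ s}) ∪ ((del i '' C)ᶜ ∩ {_x : E m | 0 ≤ s}) := by
    ext x
    by_cases hx : (chord C i x).Nonempty
    · have hx' := chord_nonempty.mp hx
      simp only [mem_preimage, mem_Iic, mem_union, mem_inter_iff, mem_compl_iff, hx', not_true,
        false_and, or_false]
      constructor
      · intro h
        exact ⟨ins i (bot C i x) x, ⟨bot_mem hC hx, by simpa using h⟩, by simp⟩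
      · rintro ⟨y, ⟨hy, hys⟩, rfl⟩
        refine le_trans (csInf_le (isCompact_chord hC i _).bddBelow ?_) hys
        rw [mem_chord, ins_del]; exact hy
    · have hx' : x ∉ del i '' C := fun h => hx (chord_nonempty.mpr h)
      have h2 : x ∉ del i '' (C ∩ {y | y i ≤ s}) := fun h => hx' (image_mono inter_subset_left h)
      have h3 : bot C i x = 0 := by
        rw [bot, not_nonempty_iff_eq_empty.mp hx, Real.sInf_empty]
      simp only [mem_preimage, mem_Iic, mem_union, mem_inter_iff, mem_compl_iff, hx', h2,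
        false_or, not_false_eq_true, true_and, h3]
      exact Iff.rfl
  rw [this]
  refine MeasurableSet.union ?_ (MeasurableSet.inter ?_ ?_)
  · have h1 : IsClosed {y : E (m + 1) | y i ≤ s} := isClosed_le (by fun_prop) (by fun_prop)
    exact ((hC.inter_right h1).image (cont_del i)).measurableSet
  · exact (hC.image (cont_del i)).measurableSet.compl
  · exact MeasurableSet.const _

/-- nondegenerate part of the shadow -/
def shadow (C : Set (E (m + 1))) (i : Fin (m + 1)) : Set (E m) :=
  del i '' C ∩ {x | bot C i x < top C i x}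

/-- nondegenerate upper boundary points -/
def upper (C : Set (E (m + 1))) (i : Fin (m + 1)) : Set (E (m + 1)) :=
  C ∩ {y | top C i (del i y) = y i} ∩ {y | bot C i (del i y) < top C i (del i y)}

/-- nondegenerate lower boundary points -/
def lower (C : Set (E (m + 1))) (i : Fin (m + 1)) : Set (E (m + 1)) :=
  C ∩ {y | bot C i (del i y) = y i} ∩ {y | bot C i (del i y) < top C i (del i y)}

theorem meas_shadow {C : Set (E (m + 1))} (hC : IsCompact C) (i : Fin (m + 1)) :
    MeasurableSet (shadow C i) :=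
  (hC.image (cont_del i)).measurableSet.inter (measurableSet_lt (meas_bot hC i) (meas_top hC i))

theorem meas_coord (i : Fin (m + 1)) : Measurable (fun y : E (m + 1) => y i) := by
  have : Continuous (fun y : E (m + 1) => y i) := by fun_prop
  exact this.measurable

theorem meas_upper {C : Set (E (m + 1))} (hC : IsCompact C) (i : Fin (m + 1)) :
    MeasurableSet (upper C i) := by
  have h1 := (meas_top hC i).comp (cont_del i).measurable
  have h2 := (meas_bot hC i).comp (cont_del i).measurable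
  exact (hC.measurableSet.inter (measurableSet_eq_fun h1 (meas_coord i))).inter
    (measurableSet_lt h2 h1)

theorem meas_lower {C : Set (E (m + 1))} (hC : IsCompact C) (i : Fin (m + 1)) :
    MeasurableSet (lower C i) := by
  have h1 := (meas_top hC i).comp (cont_del i).measurable
  have h2 := (meas_bot hC i).comp (cont_del i).measurable
  exact (hC.measurableSet.inter (measurableSet_eq_fun h2 (meas_coord i))).inter
    (measurableSet_lt h2 h1)

theorem disj {C : Set (E (m + 1))} (i : Fin (m + 1)) : Disjoint (lower C i) (upper C i) := by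
  rw [Set.disjoint_left]
  rintro y ⟨⟨_, h1⟩, h2⟩ ⟨⟨_, h3⟩, _⟩
  simp only [mem_ofPred_eq] at h1 h2 h3
  linarith

theorem cont_line (i : Fin (m + 1)) (x : E m) : Continuous (fun t : ℝ => ins i t x) :=
  (cont_ins i).comp (Continuous.prodMk_left x)

theorem upper_sub {C : Set (E (m + 1))} (hC : IsCompact C) (i : Fin (m + 1)) :
    upper C i ⊆ frontier C := by
  rintro y ⟨⟨hy, h1⟩, _⟩
  rw [hC.isClosed.frontier_eq]
  refine ⟨hy, fun hint => ?_⟩
  simp only [mem_ofPred_eq] at h1
  have h2 : (fun t : ℝ => ins i t (del i y)) ⁻¹' (interior C) ∈ nhds (y i) := by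
    apply (cont_line i (del i y)).continuousAt.preimage_mem_nhds
    simp only [ins_del]
    exact isOpen_interior.mem_nhds hint
  have h3 := Filter.Eventually.exists_gt h2
  obtain ⟨t, ht, ht2⟩ := h3
  have h4 : t ≤ top C i (del i y) :=
    le_csSup (isCompact_chord hC i _).bddAbove (show ins i t (del i y) ∈ C from interior_subset ht2)
  linarith

theorem lower_sub {C : Set (E (m + 1))} (hC : IsCompact C) (i : Fin (m + 1)) :
    lower C i ⊆ frontier C := by
  rintro y ⟨⟨hy, h1⟩, _⟩
  rw [hC.isClosed.frontier_eq]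
  refine ⟨hy, fun hint => ?_⟩
  simp only [mem_ofPred_eq] at h1
  have h2 : (fun t : ℝ => ins i t (del i y)) ⁻¹' (interior C) ∈ nhds (y i) := by
    apply (cont_line i (del i y)).continuousAt.preimage_mem_nhds
    simp only [ins_del]
    exact isOpen_interior.mem_nhds hint
  have h3 := Filter.Eventually.exists_lt h2
  obtain ⟨t, ht, ht2⟩ := h3
  have h4 : bot C i (del i y) ≤ t :=
    csInf_le (isCompact_chord hC i _).bddBelow (show ins i t (del i y) ∈ C from interior_subset ht2)
  linarith

theorem shadow_sub_upper {C : Set (E (m + 1))} (hC : IsCompact C) (i : Fin (m + 1)) :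
    shadow C i ⊆ del i '' upper C i := by
  rintro x ⟨hx, hlt⟩
  have hx' := chord_nonempty.mpr hx
  refine ⟨ins i (top C i x) x, ⟨⟨top_mem hC hx', ?_⟩, ?_⟩, by simp⟩
  · simp
  · simpa using hlt

theorem shadow_sub_lower {C : Set (E (m + 1))} (hC : IsCompact C) (i : Fin (m + 1)) :
    shadow C i ⊆ del i '' lower C i := by
  rintro x ⟨hx, hlt⟩
  have hx' := chord_nonempty.mpr hx
  refine ⟨ins i (bot C i x) x, ⟨⟨bot_mem hC hx', ?_⟩, ?_⟩, by simp⟩
  · simp
  · simpa using hlt

/-- Chord-wise comparison of a volume integral with a boundary integral. -/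
theorem dir {C : Set (E (m + 1))} (hC : IsCompact C) (hC' : Convex ℝ C) (i : Fin (m + 1))
    {f F : E (m + 1) → ℝ≥0∞} (hf : Measurable f) (hF : Measurable F)
    (hfF : ∀ x a b, a ≤ b → ∫⁻ t in Icc a b, f (ins i t x) ≤ F (ins i a x) + F (ins i b x)) :
    ∫⁻ z in C, f z ≤ ∫⁻ y in frontier C, F y ∂μHE[m] := by
  have mT := meas_top hC i
  have mB := meas_bot hC i
  have mI := (cont_ins i).measurable
  have mGT : Measurable (fun x => F (ins i (top C i x) x)) :=
    hF.comp (mI.comp (mT.prodMk measurable_id))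
  have mGB : Measurable (fun x => F (ins i (bot C i x) x)) :=
    hF.comp (mI.comp (mB.prodMk measurable_id))
  have hU : ∫⁻ x in shadow C i, F (ins i (top C i x) x) ≤ ∫⁻ y in upper C i, F y ∂μHE[m] := by
    calc ∫⁻ x in shadow C i, F (ins i (top C i x) x)
        ≤ ∫⁻ x in del i '' upper C i, F (ins i (top C i x) x) :=
          lintegral_mono_set (shadow_sub_upper hC i)
      _ ≤ ∫⁻ y in upper C i, F (ins i (top C i (del i y)) (del i y)) ∂μHE[m] := proj_le i _ mGT
      _ = _ := by
          refine setLIntegral_congr_fun (meas_upper hC i) (fun y hy => ?_)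
          have h1 : top C i (del i y) = y i := hy.1.2
          simp only [h1, ins_del]
  have hL : ∫⁻ x in shadow C i, F (ins i (bot C i x) x) ≤ ∫⁻ y in lower C i, F y ∂μHE[m] := by
    calc ∫⁻ x in shadow C i, F (ins i (bot C i x) x)
        ≤ ∫⁻ x in del i '' lower C i, F (ins i (bot C i x) x) :=
          lintegral_mono_set (shadow_sub_lower hC i)
      _ ≤ ∫⁻ y in lower C i, F (ins i (bot C i (del i y)) (del i y)) ∂μHE[m] := proj_le i _ mGB
      _ = _ := by
          refine setLIntegral_congr_fun (meas_lower hC i) (fun y hy => ?_)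
          have h1 : bot C i (del i y) = y i := hy.1.2
          simp only [h1, ins_del]
  calc ∫⁻ z in C, f z = ∫⁻ z, C.indicator f z := (lintegral_indicator hC.measurableSet _).symm
    _ = ∫⁻ x : E m, ∫⁻ t : ℝ, C.indicator f (ins i t x) :=
        fub i (hf.indicator hC.measurableSet)
    _ ≤ ∫⁻ x : E m, (shadow C i).indicator
          (fun x => F (ins i (bot C i x) x) + F (ins i (top C i x) x)) x := by
        refine lintegral_mono (fun x => ?_)
        have h1 : ∫⁻ t : ℝ, C.indicator f (ins i t x) = ∫⁻ t in chord C i x, f (ins i t x) := by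
          rw [← lintegral_indicator (isCompact_chord hC i x).measurableSet]
          rfl
        simp only
        rw [h1]
        by_cases hx : x ∈ shadow C i
        · rw [indicator_of_mem hx, chord_eq hC hC' (chord_nonempty.mpr hx.1)]
          exact hfF x _ _ (le_of_lt hx.2)
        · rw [indicator_of_notMem hx]
          have h2 : volume (chord C i x) = 0 := by
            by_cases hne : (chord C i x).Nonempty
            · rw [chord_eq hC hC' hne, Real.volume_Icc, ENNReal.ofReal_eq_zero]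
              by_contra hcon
              push Not at hcon
              exact hx ⟨chord_nonempty.mp hne, by
                simp only [mem_ofPred_eq]; linarith⟩
            · rw [not_nonempty_iff_eq_empty.mp hne, measure_empty]
          rw [setLIntegral_measure_zero _ _ h2]
    _ = ∫⁻ x in shadow C i, (F (ins i (bot C i x) x) + F (ins i (top C i x) x)) :=
        lintegral_indicator (meas_shadow hC i) _
    _ = _ := lintegral_add_left mGB _
    _ ≤ _ := add_le_add hL hU
    _ = ∫⁻ y in lower C i ∪ upper C i, F y ∂μHE[m] :=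
        (lintegral_union (meas_upper hC i) (disj i)).symm
    _ ≤ _ := lintegral_mono_set (union_subset (lower_sub hC i) (upper_sub hC i))


/-! ### The pointwise inequality -/

theorem sqrt_sum_le {ι : Type*} (s : Finset ι) (a : ι → ℝ) {c : ℝ} (hc : 0 ≤ c) :
    √((s.card * c) ^ 2 + ∑ i ∈ s, a i ^ 2) ≤ ∑ i ∈ s, √(c ^ 2 + a i ^ 2) := by
  classical
  induction s using Finset.induction_on with
  | empty => simp
  | insert j s hj ih =>
    rw [Finset.sum_insert hj, Finset.sum_insert hj, Finset.card_insert_of_notMem hj]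
    set A := ∑ i ∈ s, a i ^ 2 with hA
    have hA0 : 0 ≤ A := Finset.sum_nonneg (fun i _ => sq_nonneg _)
    set k : ℝ := (s.card : ℝ) * c with hk
    have hk0 : 0 ≤ k := by positivity
    have h1 : √((((s.card + 1 : ℕ) : ℝ) * c) ^ 2 + (a j ^ 2 + A)) ≤
        √(c ^ 2 + a j ^ 2) + √(k ^ 2 + A) := by
      have e1 : 0 ≤ √(c ^ 2 + a j ^ 2) := Real.sqrt_nonneg _
      have e2 : 0 ≤ √(k ^ 2 + A) := Real.sqrt_nonneg _
      have s1 : √(c ^ 2 + a j ^ 2) ^ 2 = c ^ 2 + a j ^ 2 := Real.sq_sqrt (by positivity)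
      have s2 : √(k ^ 2 + A) ^ 2 = k ^ 2 + A := Real.sq_sqrt (by positivity)
      have l1 : c ≤ √(c ^ 2 + a j ^ 2) := Real.le_sqrt_of_sq_le (by nlinarith [sq_nonneg (a j)])
      have l2 : k ≤ √(k ^ 2 + A) := Real.le_sqrt_of_sq_le (by linarith)
      have l3 : c * k ≤ √(c ^ 2 + a j ^ 2) * √(k ^ 2 + A) := mul_le_mul l1 l2 hk0 e1
      apply Real.sqrt_le_iff.mpr
      refine ⟨by positivity, ?_⟩
      have h3 : ((s.card + 1 : ℕ) : ℝ) * c = k + c := by push_cast; rw [hk]; ring
      rw [h3]
      nlinarith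
    linarith

theorem grad_bound {d : ℕ} (hd : 0 < d) (h : E d → ℝ) (z : E d) :
    √(1 + ‖gradient h z‖ ^ 2) ≤
      ∑ i : Fin d, √((1 / (d : ℝ)) ^ 2 +
        (lineDeriv ℝ h z (EuclideanSpace.single i (1 : ℝ))) ^ 2) := by
  have hd' : (d : ℝ) ≠ 0 := by positivity
  have h1 := sqrt_sum_le (Finset.univ : Finset (Fin d))
    (fun i => lineDeriv ℝ h z (EuclideanSpace.single i (1 : ℝ))) (c := 1 / (d : ℝ)) (by positivity)
  refine le_trans (Real.sqrt_le_sqrt ?_) h1
  rw [Finset.card_univ, Fintype.card_fin, mul_one_div_cancel hd', one_pow]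
  gcongr
  by_cases hdiff : DifferentiableAt ℝ h z
  · rw [EuclideanSpace.norm_sq_eq]
    refine le_of_eq (Finset.sum_congr rfl (fun i _ => ?_))
    have h2 : (gradient h z) i = lineDeriv ℝ h z (EuclideanSpace.single i (1 : ℝ)) := by
      rw [hdiff.lineDeriv_eq_fderiv]
      have h3 := EuclideanSpace.inner_single_right (𝕜 := ℝ) i (1 : ℝ) (gradient h z)
      simp only [one_mul, conj_trivial] at h3
      rw [← h3, gradient, InnerProductSpace.toDual_symm_apply]
    rw [h2, Real.norm_eq_abs, sq_abs]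
  · rw [gradient_eq_zero_of_not_differentiableAt hdiff]
    simp only [norm_zero]
    have := Finset.sum_nonneg (s := (Finset.univ : Finset (Fin d)))
      (f := fun i => (lineDeriv ℝ h z (EuclideanSpace.single i (1 : ℝ))) ^ 2)
      (fun i _ => sq_nonneg _)
    simpa using this

/-! ### The theorem -/

theorem main (m : ℕ) (hm : 1 ≤ m) (h : E (m + 1) → ℝ) (hconv : ConvexOn ℝ univ h)
    (hnonneg : ∀ y, 0 ≤ h y) (C : Set (E (m + 1))) (hC : IsCompact C) (hC' : Convex ℝ C) :
    ENNReal.ofReal (2 / ((m + 1 : ℕ) : ℝ)) *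
        ∫⁻ z in C, ENNReal.ofReal (h z * √(1 + ‖gradient h z‖ ^ 2)) ≤
      ∫⁻ y in frontier C, ENNReal.ofReal (‖y‖ ^ 2 + h y ^ 2) ∂μHE[m] := by
  set c : ℝ := 1 / ((m + 1 : ℕ) : ℝ) with hc
  have hc0 : 0 ≤ c := by positivity
  have hcont : Continuous h := hconv.locallyLipschitz.continuous
  set f : Fin (m + 1) → E (m + 1) → ℝ≥0∞ := fun i z =>
    ENNReal.ofReal (h z * √(c ^ 2 + (lineDeriv ℝ h z (EuclideanSpace.single i (1 : ℝ))) ^ 2))
    with hf
  set F : Fin (m + 1) → E (m + 1) → ℝ≥0∞ := fun i y =>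
    ENNReal.ofReal (h y ^ 2 / 2 + c ^ 2 * (y i) ^ 2) with hF
  have mf : ∀ i, Measurable (f i) := by
    intro i
    have h1 : Measurable (fun z => lineDeriv ℝ h z (EuclideanSpace.single i (1 : ℝ))) :=
      measurable_lineDeriv hcont
    have h2 := hcont.measurable
    simp only [hf]
    fun_prop
  have mF : ∀ i, Measurable (F i) := by
    intro i
    have h1 := meas_coord i
    have h2 := hcont.measurable
    simp only [hF]
    fun_prop
  have key : ∀ i, ∫⁻ z in C, f i z ≤ ∫⁻ y in frontier C, F i y ∂μHE[m] := by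
    intro i
    refine dir hC hC' i (mf i) (mF i) (fun x a b hab => ?_)
    have hlin : ∀ s t u v : ℝ, u + v = 1 →
        ins i (u • s + v • t) x = u • ins i s x + v • ins i t x := by
      intro s t u v huv
      ext k
      refine Fin.succAboveCases i ?_ (fun j => ?_) k
      · simp
      · simp only [ins_above, PiLp.add_apply, PiLp.smul_apply, smul_eq_mul]
        rw [← add_mul, huv, one_mul]
    have hφ : ConvexOn ℝ univ (fun t => h (ins i t x)) := by
      refine ⟨convex_univ, fun s _ t _ u v hu hv huv => ?_⟩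
      simp only
      rw [hlin s t u v huv]
      exact hconv.2 (mem_univ _) (mem_univ _) hu hv huv
    have h1 := oneD hφ (fun t => hnonneg _) hc0 hab
    have h2 : ∀ t, deriv (fun t => h (ins i t x)) t =
        lineDeriv ℝ h (ins i t x) (EuclideanSpace.single i (1 : ℝ)) := by
      intro t
      have h3 : (fun s : ℝ => h (ins i t x + s • EuclideanSpace.single i (1 : ℝ))) =
          fun s => (fun t => h (ins i t x)) (t + s) := by
        funext s
        simp only
        congr 1
        ext k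
        refine Fin.succAboveCases i ?_ (fun j => ?_) k
        · simp
        · simp [Fin.succAbove_ne]
      have h4 := deriv_comp_const_add (f := fun t => h (ins i t x)) t 0
      rw [add_zero] at h4
      rw [lineDeriv, h3, h4]
    simp only [h2] at h1
    simpa only [hf, hF, ins_same] using h1
  calc ENNReal.ofReal (2 / ((m + 1 : ℕ) : ℝ)) *
        ∫⁻ z in C, ENNReal.ofReal (h z * √(1 + ‖gradient h z‖ ^ 2))
      ≤ ENNReal.ofReal (2 / ((m + 1 : ℕ) : ℝ)) * ∫⁻ z in C, ∑ i, f i z := by
        gcongr with z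
        simp only [hf]
        rw [← ENNReal.ofReal_sum_of_nonneg
          (fun i _ => mul_nonneg (hnonneg _) (Real.sqrt_nonneg _)), ← Finset.mul_sum]
        exact ENNReal.ofReal_le_ofReal
          (mul_le_mul_of_nonneg_left (grad_bound (Nat.succ_pos m) h z) (hnonneg z))
    _ = ENNReal.ofReal (2 / ((m + 1 : ℕ) : ℝ)) * ∑ i, ∫⁻ z in C, f i z := by
        rw [lintegral_finsetSum _ (fun i _ => mf i)]
    _ ≤ ENNReal.ofReal (2 / ((m + 1 : ℕ) : ℝ)) * ∑ i, ∫⁻ y in frontier C, F i y ∂μHE[m] := by
        exact mul_le_mul_right (Finset.sum_le_sum (fun i _ => key i)) _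
    _ = ∫⁻ y in frontier C, ENNReal.ofReal (2 / ((m + 1 : ℕ) : ℝ)) * ∑ i, F i y ∂μHE[m] := by
        rw [← lintegral_finsetSum _ (fun i _ => mF i), lintegral_const_mul]
        exact Finset.measurable_fun_sum _ (fun i _ => mF i)
    _ ≤ _ := by
        refine lintegral_mono (fun y => ?_)
        simp only [hF]
        rw [← ENNReal.ofReal_sum_of_nonneg (fun i _ => by positivity),
          ← ENNReal.ofReal_mul (by positivity)]
        apply ENNReal.ofReal_le_ofReal
        rw [Finset.sum_add_distrib, Finset.sum_const, Finset.card_univ, Fintype.card_fin,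
          ← Finset.mul_sum, EuclideanSpace.real_norm_sq_eq, nsmul_eq_mul]
        set N := ∑ i, y i ^ 2 with hN
        have hN0 : 0 ≤ N := Finset.sum_nonneg (fun i _ => sq_nonneg _)
        have hd : (0 : ℝ) < ((m + 1 : ℕ) : ℝ) := by positivity
        have hd2 : (2 : ℝ) ≤ ((m + 1 : ℕ) : ℝ) := by
          have : (2 : ℕ) ≤ m + 1 := by omega
          exact_mod_cast this
        set D : ℝ := ((m + 1 : ℕ) : ℝ) with hD
        have e1 : 2 / D * (D * (h y ^ 2 / 2) + c ^ 2 * N) = h y ^ 2 + 2 / D ^ 3 * N := by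
          rw [hc]; field_simp
        rw [e1]
        have e2 : 2 / D ^ 3 ≤ 1 := by
          rw [div_le_one (by positivity)]
          nlinarith [mul_pos hd hd]
        nlinarith

/-- **Theorem.** For every `n ≥ 3`, every convex `h : ℝ^{n-1} → [0, ∞)` and every compact convex
`C ⊆ ℝ^{n-1}`: `(2/(n-1)) ∫_C h(z) √(1 + |∇h(z)|²) dz ≤ ∫_{∂C} (|y|² + h(y)²) dH^{n-2}(y)`. -/
theorem result (n : ℕ) (hn : 3 ≤ n) (h : EuclideanSpace ℝ (Fin (n - 1)) → ℝ)
    (hconv : ConvexOn ℝ univ h) (hnonneg : ∀ y, 0 ≤ h y)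
    (C : Set (EuclideanSpace ℝ (Fin (n - 1)))) (hC : IsCompact C) (hC' : Convex ℝ C) :
    ENNReal.ofReal (2 / ((n : ℝ) - 1)) *
        ∫⁻ z in C, ENNReal.ofReal (h z * √(1 + ‖gradient h z‖ ^ 2)) ≤
      ∫⁻ y in frontier C, ENNReal.ofReal (‖y‖ ^ 2 + h y ^ 2) ∂μHE[n - 2] := by
  obtain ⟨m, rfl⟩ : ∃ m, n = m + 2 := ⟨n - 2, by omega⟩
  have h1 := main m (by omega) h hconv hnonneg C hC hC'
  have h2 : (((m + 2 : ℕ) : ℝ) - 1) = ((m + 1 : ℕ) : ℝ) := by push_cast; ring
  rw [h2]
  exact h1

end Pool.Agent.Results.MP_e9cb08_gt.ConvexBoundary
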